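import Pool.Agent.H43.DPC.Targets

/-! GRA: counting configurations that are close along a graph. -/

set_option autoImplicit false

open MeasureTheory SchwartzMap Filter Topology
open scoped ENNReal ContDiff

namespace Pool.Agent.H43.DPC

theorem GRA_dom {n : ℕ} (G : Finset (Fin n × Fin n)) (hG : ∀ e ∈ G, e.1 ≠ e.2) :
    ∃ D ⊆ touched G, D.card ≤ (touched G).card / 2 ∧
      ∀ w ∈ touched G, w ∉ D → ∃ r ∈ D, (w, r) ∈ G ∨ (r, w) ∈ G := by
  classical
  let adj : Fin n → Fin n → Prop := fun i j => (i, j) ∈ G ∨ (j, i) ∈ G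
  have hsymm : ∀ i j, adj i j → adj j i := fun i j h => h.symm
  have hirr : ∀ i, ¬ adj i i := by
    rintro i (h | h) <;> exact hG _ h rfl
  have htouch : ∀ i j, adj i j → i ∈ touched G := by
    intro i j h
    exact Finset.mem_filter.2 ⟨Finset.mem_univ i, j, h⟩
  let Ind : Finset (Finset (Fin n)) :=
    (touched G).powerset.filter fun I => ∀ i ∈ I, ∀ j ∈ I, ¬ adj i j
  have hne : Ind.Nonempty :=
    ⟨∅, Finset.mem_filter.2 ⟨Finset.empty_mem_powerset _, by simp⟩⟩
  obtain ⟨I, hI, hmax⟩ := Finset.exists_max_image Ind Finset.card hne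
  have hI1 : I ⊆ touched G := Finset.mem_powerset.1 (Finset.mem_filter.1 hI).1
  have hI2 : ∀ i ∈ I, ∀ j ∈ I, ¬ adj i j := (Finset.mem_filter.1 hI).2
  have hA : ∀ w ∈ touched G, w ∉ I → ∃ r ∈ I, adj w r := by
    intro w hw hwI
    by_contra hcon
    push Not at hcon
    have h1 : insert w I ∈ Ind := by
      refine Finset.mem_filter.2 ⟨Finset.mem_powerset.2 (Finset.insert_subset hw hI1), ?_⟩
      intro i hi j hj
      rcases Finset.mem_insert.1 hi with hi' | hi'
      · rcases Finset.mem_insert.1 hj with hj' | hj'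
        · rw [hi', hj']
          exact hirr _
        · rw [hi']
          exact hcon j hj'
      · rcases Finset.mem_insert.1 hj with hj' | hj'
        · rw [hj']
          exact fun h => hcon i hi' (hsymm _ _ h)
        · exact hI2 i hi' j hj'
    have h2 := hmax _ h1
    rw [Finset.card_insert_of_notMem hwI] at h2
    omega
  by_cases hc : I.card ≤ (touched G).card / 2
  · exact ⟨I, hI1, hc, hA⟩
  · refine ⟨touched G \ I, Finset.sdiff_subset, ?_, ?_⟩
    · rw [Finset.card_sdiff_of_subset hI1]
      omega
    · intro w hw hwD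
      have hwI : w ∈ I := by
        by_contra h
        exact hwD (Finset.mem_sdiff.2 ⟨hw, h⟩)
      obtain ⟨j, hj⟩ := (Finset.mem_filter.1 hw).2
      refine ⟨j, Finset.mem_sdiff.2 ⟨htouch j w (hsymm w j hj), fun h => hI2 w hwI j h hj⟩, hj⟩

theorem GRA : T_GRA := by
  intro κ _ n c _ hc K k0 hk0 B hB hK G hG hGne
  classical
  refine ⟨?_, ?_⟩
  · obtain ⟨e, he⟩ := hGne
    have h1 : ({e.1, e.2} : Finset (Fin n)) ⊆ touched G := by
      intro i hi
      rcases Finset.mem_insert.1 hi with rfl | hi
      · exact Finset.mem_filter.2 ⟨Finset.mem_univ _, e.2, Or.inl he⟩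
      · rw [Finset.mem_singleton.1 hi]
        exact Finset.mem_filter.2 ⟨Finset.mem_univ _, e.1, Or.inr he⟩
    have h2 := Finset.card_le_card h1
    rwa [Finset.card_pair (hG e he)] at h2
  obtain ⟨D, hDW, hDc, hD⟩ := GRA_dom G hG
  have hr : ∀ w : Fin n, ∃ r, w ∈ touched G → w ∉ D → r ∈ D ∧ ((w, r) ∈ G ∨ (r, w) ∈ G) := by
    intro w
    by_cases h : w ∈ touched G ∧ w ∉ D
    · obtain ⟨r, h1, h2⟩ := hD w h.1 h.2
      exact ⟨r, fun _ _ => ⟨h1, h2⟩⟩
    · exact ⟨w, fun h1 h2 => absurd ⟨h1, h2⟩ h⟩
  choose r hr using hr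
  set F := (Fintype.piFinset (fun i : Fin n => if i ∈ touched G then K else {k0})).filter
      (fun k => ∀ e ∈ G, c (k e.1) (k e.2)) with hF
  set T := Fintype.piFinset (fun i : Fin n => if i ∈ D then K else {k0}) with hT
  have hmaps : ∀ k ∈ F, (fun i => if i ∈ D then k i else k0) ∈ T := by
    intro k hk
    rw [hT, Fintype.mem_piFinset]
    intro i
    have h1 := Fintype.mem_piFinset.1 (Finset.mem_filter.1 hk).1 i
    by_cases hi : i ∈ D
    · rw [if_pos hi, if_pos hi]
      rwa [if_pos (hDW hi)] at h1
    · rw [if_neg hi, if_neg hi]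
      exact Finset.mem_singleton_self k0
  have hfib : ∀ d ∈ T, (F.filter fun k => (fun i => if i ∈ D then k i else k0) = d).card ≤
      B ^ n := by
    intro d hd
    have hdK : ∀ i ∈ D, d i ∈ K := by
      intro i hi
      have h1 := Fintype.mem_piFinset.1 hd i
      rwa [if_pos hi] at h1
    have hsub : (F.filter fun k => (fun i => if i ∈ D then k i else k0) = d) ⊆
        Fintype.piFinset (fun i => if i ∈ D then {d i} else
          if i ∈ touched G then K.filter (c (d (r i))) else {k0}) := by
      intro k hk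
      obtain ⟨hkF, hkd⟩ := Finset.mem_filter.1 hk
      obtain ⟨hk1, hk2⟩ := Finset.mem_filter.1 hkF
      have hkD : ∀ i ∈ D, k i = d i := by
        intro i hi
        have h1 := congrFun hkd i
        simp only [if_pos hi] at h1
        exact h1
      rw [Fintype.mem_piFinset]
      intro i
      have h1 := Fintype.mem_piFinset.1 hk1 i
      by_cases hi : i ∈ D
      · rw [if_pos hi, hkD i hi]
        exact Finset.mem_singleton_self _
      · rw [if_neg hi]
        by_cases hiW : i ∈ touched G
        · rw [if_pos hiW] at h1 ⊢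
          obtain ⟨h2, h3⟩ := hr i hiW hi
          refine Finset.mem_filter.2 ⟨h1, ?_⟩
          rw [← hkD _ h2]
          rcases h3 with h3 | h3
          · exact hc _ _ (hk2 _ h3)
          · exact hk2 _ h3
        · rw [if_neg hiW] at h1 ⊢
          exact h1
    refine (Finset.card_le_card hsub).trans ?_
    rw [Fintype.card_piFinset]
    calc ∏ i, (if i ∈ D then {d i} else
          if i ∈ touched G then K.filter (c (d (r i))) else {k0} : Finset κ).card
        ≤ ∏ _i : Fin n, B := by
          refine Finset.prod_le_prod' fun i _ => ?_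
          by_cases hi : i ∈ D
          · rw [if_pos hi, Finset.card_singleton]
            exact hB
          · rw [if_neg hi]
            by_cases hiW : i ∈ touched G
            · rw [if_pos hiW]
              exact hK _ (hdK _ (hr i hiW hi).1)
            · rw [if_neg hiW, Finset.card_singleton]
              exact hB
      _ = B ^ n := by
          rw [Finset.prod_const, Finset.card_univ, Fintype.card_fin]
  have h1 := Finset.card_le_mul_card_image_of_maps_to hmaps (B ^ n) hfib
  have hTc : T.card = K.card ^ D.card := by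
    rw [hT, Fintype.card_piFinset]
    have h2 : ∀ i : Fin n, (if i ∈ D then K else {k0} : Finset κ).card =
        if i ∈ D then K.card else 1 := by
      intro i
      split_ifs <;> simp
    simp only [h2]
    rw [Finset.prod_ite, Finset.prod_const_one, mul_one, Finset.prod_const]
    congr 2
    ext i
    simp
  have hK1 : 1 ≤ K.card := Finset.card_pos.2 ⟨k0, hk0⟩
  have h3 : F.card ≤ B ^ n * K.card ^ ((touched G).card / 2) := by
    refine h1.trans ?_
    rw [hTc]
    exact Nat.mul_le_mul_left _ (Nat.pow_le_pow_right hK1 hDc)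
  exact_mod_cast h3

end Pool.Agent.H43.DPC
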