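import Pool.Agent.H43.DPC.Targets

/-! RAD: a radial function is determined by its Gaussian integrals. -/

set_option autoImplicit false

open MeasureTheory SchwartzMap Filter Topology
open scoped ENNReal ContDiff

namespace Pool.Agent.H43.DPC

theorem RAD_bound (m : ℕ) (σ : ℝ) (hσ : 0 < σ) :
    ∃ K > (0 : ℝ), ∀ s : ℝ, 0 ≤ s → (1 + s) ^ m ≤ K * Real.exp (σ * s ^ 2) := by
  obtain ⟨c, hc⟩ : ∃ c, c = σ / (m + 1) := ⟨_, rfl⟩
  have hc0 : 0 < c := by rw [hc]; positivity
  obtain ⟨A, hA⟩ : ∃ A, A = 1 + 1 / (4 * c) := ⟨_, rfl⟩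
  have hA1 : 1 ≤ A := by
    rw [hA]
    have : 0 < 1 / (4 * c) := by positivity
    linarith
  refine ⟨A ^ (m + 1), by positivity, fun s hs => ?_⟩
  have h1 : s ≤ c * s ^ 2 + 1 / (4 * c) := by
    have h2 : c * s ^ 2 + 1 / (4 * c) - s = (2 * c * s - 1) ^ 2 / (4 * c) := by
      field_simp
      ring
    have h3 : 0 ≤ (2 * c * s - 1) ^ 2 / (4 * c) := by positivity
    linarith
  have h2 : 1 + s ≤ A * Real.exp (c * s ^ 2) := by
    have h3 : c * s ^ 2 + 1 ≤ Real.exp (c * s ^ 2) := Real.add_one_le_exp _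
    have h4 : 0 ≤ c * s ^ 2 := by positivity
    have h5 : A * (c * s ^ 2 + 1) ≤ A * Real.exp (c * s ^ 2) :=
      mul_le_mul_of_nonneg_left h3 (by linarith)
    have h6 : 1 * (c * s ^ 2) ≤ A * (c * s ^ 2) := mul_le_mul_of_nonneg_right hA1 h4
    have h7 : A = 1 + 1 / (4 * c) := hA
    nlinarith
  calc (1 + s) ^ m ≤ (1 + s) ^ (m + 1) := pow_le_pow_right₀ (by linarith) (Nat.le_succ m)
    _ ≤ (A * Real.exp (c * s ^ 2)) ^ (m + 1) := pow_le_pow_left₀ (by linarith) h2 _
    _ = A ^ (m + 1) * Real.exp (σ * s ^ 2) := by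
        rw [mul_pow, ← Real.exp_nat_mul]
        congr 2
        rw [hc]
        push_cast
        field_simp

theorem RAD_gauss (d : ℕ) (σ : ℝ) (hσ : 0 < σ) :
    Integrable (fun y : V d => Real.exp (-(σ * ‖y‖ ^ 2))) := by
  have h := GaussianFourier.integral_rexp_neg_mul_sq_norm (V := V d) hσ
  have h2 : (∫ y : V d, Real.exp (-(σ * ‖y‖ ^ 2))) ≠ 0 := by
    simp only [← neg_mul]
    rw [h]
    positivity
  exact not_imp_comm.1 integral_undef h2

theorem RAD_int (d : ℕ) (D : V d → ℝ) (hD : Continuous D) (C : ℝ) (m : ℕ) (hC : 0 ≤ C)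
    (hb : ∀ x, |D x| ≤ C * (1 + ‖x‖) ^ m) (σ : ℝ) (hσ : 0 < σ) :
    Integrable (fun y : V d => D y * Real.exp (-(σ * ‖y‖ ^ 2))) := by
  obtain ⟨K, hK, hKb⟩ := RAD_bound m (σ / 2) (by positivity)
  refine ((RAD_gauss d (σ / 2) (by positivity)).const_mul (C * K)).mono'
    (Continuous.aestronglyMeasurable (by fun_prop)) (Eventually.of_forall fun y => ?_)
  rw [norm_mul, Real.norm_eq_abs, Real.norm_of_nonneg (Real.exp_pos _).le]
  calc |D y| * Real.exp (-(σ * ‖y‖ ^ 2))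
      ≤ C * (1 + ‖y‖) ^ m * Real.exp (-(σ * ‖y‖ ^ 2)) :=
        mul_le_mul_of_nonneg_right (hb y) (Real.exp_pos _).le
    _ ≤ C * (K * Real.exp (σ / 2 * ‖y‖ ^ 2)) * Real.exp (-(σ * ‖y‖ ^ 2)) :=
        mul_le_mul_of_nonneg_right (mul_le_mul_of_nonneg_left (hKb _ (norm_nonneg y)) hC)
          (Real.exp_pos _).le
    _ = C * K * Real.exp (-(σ / 2 * ‖y‖ ^ 2)) := by
        rw [mul_assoc, mul_assoc, ← Real.exp_add, mul_assoc]
        congr 3
        ring

theorem RAD : T_RAD := by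
  rintro d hd D hD ⟨C, m, hb⟩ hrad hint
  have hC : 0 ≤ C := by
    have h1 := hb 0
    rw [norm_zero, add_zero, one_pow, mul_one] at h1
    exact (abs_nonneg _).trans h1
  obtain ⟨e, he⟩ : ∃ e : V d, ‖e‖ = 1 :=
    ⟨EuclideanSpace.single ⟨0, hd⟩ (1 : ℝ), by simp⟩
  obtain ⟨h, hh⟩ : ∃ h : ℝ → ℝ, ∀ r, h r = D (Real.sqrt r • e) := ⟨_, fun r => rfl⟩
  have hhc : Continuous h := by
    have h1 : h = fun r => D (Real.sqrt r • e) := funext hh
    rw [h1]
    exact hD.comp (Real.continuous_sqrt.smul continuous_const)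
  have hhD : ∀ y : V d, h (‖y‖ ^ 2) = D y := by
    intro y
    rw [hh, Real.sqrt_sq (norm_nonneg y)]
    apply hrad
    rw [norm_smul, he, mul_one, norm_norm]
  have hhb : ∀ r, 0 ≤ r → |h r| ≤ C * (1 + Real.sqrt r) ^ m := by
    intro r hr
    have h1 := hb (Real.sqrt r • e)
    rw [norm_smul, he, mul_one, Real.norm_of_nonneg (Real.sqrt_nonneg r)] at h1
    rw [hh]
    exact h1
  obtain ⟨g, hg⟩ : ∃ g : ℝ → ℝ, ∀ w, g w = h (-Real.log w) * w := ⟨_, fun w => rfl⟩
  have hgD : ∀ y : V d, g (Real.exp (-‖y‖ ^ 2)) = D y * Real.exp (-‖y‖ ^ 2) := by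
    intro y
    rw [hg, Real.log_exp, neg_neg, hhD]
  have hg0 : g 0 = 0 := by
    rw [hg, mul_zero]
  obtain ⟨K, hK, hKb⟩ := RAD_bound m (1 / 2) (by norm_num)
  have hgb : ∀ w ∈ Set.Icc (0 : ℝ) 1, ‖g w‖ ≤ C * K * Real.sqrt w := by
    intro w hw
    rcases eq_or_lt_of_le hw.1 with h0 | h0
    · rw [← h0, hg0, norm_zero, Real.sqrt_zero, mul_zero]
    · have ht : 0 ≤ -Real.log w := by
        have := Real.log_nonpos hw.1 hw.2
        linarith
      obtain ⟨t, htt⟩ : ∃ t, t = -Real.log w := ⟨_, rfl⟩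
      rw [← htt] at ht
      have hw2 : w = Real.exp (-t) := by
        rw [htt, neg_neg, Real.exp_log h0]
      have h1 : |h t| ≤ C * (K * Real.exp (1 / 2 * t)) := by
        refine (hhb t ht).trans (mul_le_mul_of_nonneg_left ?_ hC)
        have h2 := hKb (Real.sqrt t) (Real.sqrt_nonneg t)
        rwa [Real.sq_sqrt ht] at h2
      have h3 : Real.sqrt w = Real.exp (1 / 2 * t) * w := by
        rw [hw2, ← Real.exp_half, ← Real.exp_add]
        congr 1
        ring
      rw [hg, ← htt, norm_mul, Real.norm_eq_abs, Real.norm_of_nonneg h0.le, h3]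
      calc |h t| * w ≤ C * (K * Real.exp (1 / 2 * t)) * w :=
            mul_le_mul_of_nonneg_right h1 h0.le
        _ = C * K * (Real.exp (1 / 2 * t) * w) := by ring
  have hgc : ContinuousOn g (Set.Icc 0 1) := by
    intro w hw
    rcases eq_or_lt_of_le hw.1 with h0 | h0
    · rw [← h0]
      change Tendsto g (𝓝[Set.Icc 0 1] 0) (𝓝 (g 0))
      rw [hg0]
      refine squeeze_zero_norm' (a := fun w => C * K * Real.sqrt w)
        (eventually_nhdsWithin_of_forall hgb) ?_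
      have h1 : Tendsto (fun w => C * K * Real.sqrt w) (𝓝 0) (𝓝 (C * K * Real.sqrt 0)) :=
        (continuous_const.mul Real.continuous_sqrt).tendsto 0
      rw [Real.sqrt_zero, mul_zero] at h1
      exact h1.mono_left nhdsWithin_le_nhds
    · have h1 : g = fun w => h (-Real.log w) * w := funext hg
      rw [h1]
      exact (ContinuousAt.mul (hhc.continuousAt.comp
        (Real.continuousAt_log h0.ne').neg) continuousAt_id).continuousWithinAt
  have hpoly : ∀ P : Polynomial ℝ,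
      ∫ y : V d, D y * Real.exp (-‖y‖ ^ 2) * P.eval (Real.exp (-‖y‖ ^ 2)) = 0 := by
    intro P
    have h1 : ∀ y : V d, D y * Real.exp (-‖y‖ ^ 2) * P.eval (Real.exp (-‖y‖ ^ 2)) =
        ∑ k ∈ Finset.range (P.natDegree + 1),
          P.coeff k * (D y * Real.exp (-(((k : ℝ) + 1) * ‖y‖ ^ 2))) := by
      intro y
      rw [Polynomial.eval_eq_sum_range, Finset.mul_sum]
      refine Finset.sum_congr rfl fun k _ => ?_
      have h2 : Real.exp (-(((k : ℝ) + 1) * ‖y‖ ^ 2)) =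
          Real.exp (-‖y‖ ^ 2) * Real.exp (-‖y‖ ^ 2) ^ k := by
        rw [← Real.exp_nat_mul, ← Real.exp_add]
        congr 1
        ring
      rw [h2]
      ring
    simp only [h1]
    rw [integral_finsetSum]
    · refine Finset.sum_eq_zero fun k _ => ?_
      rw [integral_const_mul, hint _ (by positivity), mul_zero]
    · intro k _
      exact (RAD_int d D hD C m hC hb _ (by positivity)).const_mul _
  have hI1 : Integrable (fun y : V d => D y * Real.exp (-‖y‖ ^ 2)) := by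
    have h1 := RAD_int d D hD C m hC hb 1 one_pos
    simpa only [one_mul] using h1
  obtain ⟨M, hM⟩ : ∃ M, M = ∫ y : V d, ‖D y * Real.exp (-‖y‖ ^ 2)‖ := ⟨_, rfl⟩
  have hM0 : 0 ≤ M := by
    rw [hM]
    exact integral_nonneg fun y => norm_nonneg _
  have hI2 : Integrable (fun y : V d => (D y * Real.exp (-‖y‖ ^ 2)) ^ 2) := by
    have h1 := RAD_int d (fun y => D y ^ 2) (by fun_prop) (C ^ 2) (2 * m) (by positivity) ?_ 2
      two_pos
    · refine h1.congr (Eventually.of_forall fun y => ?_)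
      dsimp only
      rw [mul_pow, ← Real.exp_nat_mul]
      congr 2
      push_cast
      ring
    · intro x
      rw [abs_pow]
      calc |D x| ^ 2 ≤ (C * (1 + ‖x‖) ^ m) ^ 2 := pow_le_pow_left₀ (abs_nonneg _) (hb x) 2
        _ = C ^ 2 * (1 + ‖x‖) ^ (2 * m) := by
          rw [mul_pow, ← pow_mul, mul_comm m 2]
  have hexp : ∀ y : V d, Real.exp (-‖y‖ ^ 2) ∈ Set.Icc (0 : ℝ) 1 := by
    intro y
    refine ⟨(Real.exp_pos _).le, Real.exp_le_one_iff.2 ?_⟩
    have := sq_nonneg ‖y‖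
    linarith
  have hI0 : ∫ y : V d, (D y * Real.exp (-‖y‖ ^ 2)) ^ 2 = 0 := by
    have hle : ∀ ε : ℝ, 0 < ε → |∫ y : V d, (D y * Real.exp (-‖y‖ ^ 2)) ^ 2| ≤ ε * M := by
      intro ε hε
      obtain ⟨P, hP⟩ := exists_polynomial_near_of_continuousOn 0 1 g hgc ε hε
      have h1 : ∫ y : V d, (D y * Real.exp (-‖y‖ ^ 2)) ^ 2 =
          ∫ y : V d, ((D y * Real.exp (-‖y‖ ^ 2)) ^ 2 -
            D y * Real.exp (-‖y‖ ^ 2) * P.eval (Real.exp (-‖y‖ ^ 2))) := by
        rw [integral_sub hI2, hpoly P, sub_zero]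
        obtain ⟨B, hB⟩ := isCompact_Icc.exists_bound_of_continuousOn
          (P.continuous.continuousOn (s := Set.Icc (0 : ℝ) 1))
        refine (hI1.norm.const_mul B).mono' (Continuous.aestronglyMeasurable ?_)
          (Eventually.of_forall fun y => ?_)
        · exact (hD.mul (by fun_prop)).mul (P.continuous.comp (by fun_prop))
        · rw [norm_mul, mul_comm]
          exact mul_le_mul_of_nonneg_right (hB _ (hexp y)) (norm_nonneg _)
      rw [h1, hM, ← integral_const_mul, ← Real.norm_eq_abs]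
      refine norm_integral_le_of_norm_le (hI1.norm.const_mul ε) (Eventually.of_forall fun y => ?_)
      have h2 : (D y * Real.exp (-‖y‖ ^ 2)) ^ 2 -
          D y * Real.exp (-‖y‖ ^ 2) * P.eval (Real.exp (-‖y‖ ^ 2)) =
          (g (Real.exp (-‖y‖ ^ 2)) - P.eval (Real.exp (-‖y‖ ^ 2))) *
            (D y * Real.exp (-‖y‖ ^ 2)) := by
        rw [hgD]
        ring
      rw [h2, norm_mul]
      refine mul_le_mul_of_nonneg_right ?_ (norm_nonneg _)
      rw [Real.norm_eq_abs, abs_sub_comm]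
      exact (hP _ (hexp y)).le
    by_contra hne
    have hpos : 0 < |∫ y : V d, (D y * Real.exp (-‖y‖ ^ 2)) ^ 2| := abs_pos.2 hne
    obtain ⟨I, hI⟩ : ∃ I, I = |∫ y : V d, (D y * Real.exp (-‖y‖ ^ 2)) ^ 2| := ⟨_, rfl⟩
    rw [← hI] at hpos hle
    have h1 := hle (I / (2 * (M + 1))) (by positivity)
    have h2 : I / (2 * (M + 1)) * M ≤ I / 2 := by
      rw [div_mul_eq_mul_div, div_le_div_iff₀ (by positivity) (by norm_num)]
      nlinarith
    linarith
  have hz := (integral_eq_zero_iff_of_nonneg (fun y => sq_nonneg _) hI2).1 hI0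
  have hz2 : (fun y : V d => (D y * Real.exp (-‖y‖ ^ 2)) ^ 2) = 0 := by
    refine (Continuous.ae_eq_iff_eq volume (by fun_prop) continuous_const).1 hz
  intro x
  have h1 := congrFun hz2 x
  have h2 : D x * Real.exp (-‖x‖ ^ 2) = 0 := by
    have h3 : (D x * Real.exp (-‖x‖ ^ 2)) ^ 2 = 0 := h1
    exact pow_eq_zero_iff (two_ne_zero) |>.1 h3
  exact (mul_eq_zero.1 h2).resolve_right (Real.exp_pos _).ne'

end Pool.Agent.H43.DPC
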